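import Pool.Agent.Lib.H8.Bs

/-!
The zero positions of the generalized Baum-Sweet sequences are not regular.
-/

namespace Pool.Agent.Results.MP_0f6055_nt.Never

/-- `b r n` says that every block of zeros in the binary expansion of `n` has length divisible
by `r`. -/
def b (r n : ℕ) : Prop := ∀ z ∈ (Nat.digits 2 n).splitOn 1, r ∣ z.length

/-- The increasing enumeration of the zero positions. -/
noncomputable def h (r n : ℕ) : ℤ := (Nat.nth (fun m => ¬ b r m) n : ℕ)

/-- The module spanned by the `k`-kernel is finitely generated. -/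
def Regular (k : ℕ) (u : ℕ → ℤ) : Prop :=
  (Submodule.span ℤ {f : ℕ → ℤ | ∃ i j, j < k ^ i ∧ f = fun n => u (k ^ i * n + j)}).FG

theorem result (r : ℕ) (hr : 2 ≤ r) :
    {m | ¬ b r m}.Infinite ∧ ∀ k, 2 ≤ k → ¬ Regular k (h r) :=
  Pool.Agent.Lib.H8.Bs.main hr

end Pool.Agent.Results.MP_0f6055_nt.Never
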